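import Mathlib
import Pool.Agent.H.MP_9b9b31_co.B

namespace Pool.Agent.Results.MP_9b9b31_co.Yes

open Pool.Agent.H.MP_9b9b31_co SimpleGraph

/-- `G` embeds on a surface of Euler genus `g`: it is a subgraph of the 1-skeleton of a
triangulation of such a surface -/
def Embeds {V : Type} (G : SimpleGraph V) (g : ℕ) : Prop :=
  ∃ (n : ℕ) (T : Finset (Finset (Fin n))), Surf T g ∧ G ⊑ skel T

theorem result : ∃ c : ℕ → ℝ, (∀ l, 0 < c l) ∧ Filter.Tendsto c Filter.atTop (nhds 0) ∧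
    ∀ l : ℕ, 7 ≤ l → ∀ g : ℕ, 1 ≤ g → ∀ (V : Type) (G : SimpleGraph V),
      (l : ℕ∞) ≤ G.egirth → Embeds G g → Col G ⌊100 * (g : ℝ) ^ c l⌋₊ := by
  refine ⟨fun l => ((max 1 ((l - 3) / 6) : ℕ) : ℝ)⁻¹, fun l => by positivity,
    tendsto_inv_atTop_zero.comp (tendsto_natCast_atTop_atTop.comp
      (Filter.tendsto_atTop_atTop.2 fun b => ⟨6 * b + 3, fun a _ => by omega⟩)), ?_⟩
  rintro l h7 g hg V G hl ⟨n, T, hT, ⟨f, hf⟩⟩
  set r := max 1 ((l - 3) / 6) with hr
  have hg' : (1 : ℝ) ≤ g := by exact_mod_cast hg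
  have h1 : 1 ≤ (g : ℝ) ^ (r : ℝ)⁻¹ := Real.one_le_rpow hg' (by positivity)
  have h2 : ((g : ℝ) ^ (r : ℝ)⁻¹) ^ r = g := Real.rpow_inv_natCast_pow (by positivity) (by omega)
  have h3 := Nat.lt_floor_add_one (100 * (g : ℝ) ^ (r : ℝ)⁻¹)
  beta_reduce
  set K := ⌊100 * (g : ℝ) ^ (r : ℝ)⁻¹⌋₊
  rcases isEmpty_or_nonempty V with _ | _
  · exact ⟨Set.univ, fun a => isEmptyElim a, by simp⟩
  have hi := Function.leftInverse_invFun hf
  let φ : G.map f →g G := ⟨Function.invFun f, by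
    rintro _ _ ⟨-, u, v, h, rfl, rfl⟩
    simpa [hi u, hi v] using h⟩
  obtain ⟨I, hI, hD⟩ := main (K := K) (r := r) hT h7
    (by exact_mod_cast (by linarith : (28 : ℝ) ≤ K)) (by omega) (by
      have : (3 * 33 * (g : ℝ) ^ (r : ℝ)⁻¹) ^ r ≤ K ^ r :=
        pow_le_pow_left₀ (by positivity) (by linarith) r
      rw [mul_pow, mul_pow, h2, mul_assoc] at this
      have h4 : (33 : ℝ) ≤ 33 ^ r := le_self_pow₀ (by norm_num) (by omega)
      have : (3 : ℝ) ^ r * (28 * g) < K ^ r :=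
        (mul_lt_mul_of_pos_left (by nlinarith) (by positivity)).trans_le this
      exact_mod_cast this) (G.map f) (by
      rintro _ _ ⟨-, u, v, h, rfl, rfl⟩
      exact f.map_adj h) (le_egirth.2 fun a w hw => by
      refine (hl.trans (Walk.IsCircuit.egirth_le_length (w := w.map φ) ⟨⟨?_⟩, ?_⟩)).trans_eq
        (by simp)
      · rw [Walk.edges_map]
        have : ∀ e ∈ w.edges, (e.map φ).map f = e := fun e he => by
          have := w.edges_subset_edgeSet he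
          induction e using Sym2.ind with | _ x y => ?_
          obtain ⟨-, u, v, h, rfl, rfl⟩ := this
          simp [φ, hi u, hi v]
        exact hw.edges_nodup.map_on fun x hx y hy h => by rw [← this x hx, h, this y hy]
      · simpa using hw.ne_nil)
  refine ⟨f ⁻¹' I, fun a ha b hb hab h => hI ha hb (hf.ne hab) ⟨hf.ne hab, a, b, h, rfl, rfl⟩,
    fun v hv => le_trans ?_ (hD (f v) hv)⟩
  exact Set.ncard_le_ncard_of_injOn f (fun w hw => ⟨hw.1, hf.ne hw.2.ne, v, w, hw.2, rfl, rfl⟩)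
    hf.injOn

end Pool.Agent.Results.MP_9b9b31_co.Yes
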